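import Mathlib
import Pool.Agent.Q6.FreeAct.Str

/-!
# MP_544bd1_al: groups of exponent ten, and more general groups, acting freely on abelian groups

`𝓛` is the set of the positive integers `n` such that every group satisfying `x ^ n = 1` is locally
finite.  It is unknown whether `5`, `10`, `15` or `20` belongs to `𝓛`.  We settle the exponent `10`
(and a large part of the exponents `5 m` with `m ∈ 𝓛`) for the groups which act freely on a
nontrivial abelian group.
-/

set_option autoImplicit false

universe u v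

namespace Pool.Agent.Results.MP_544bd1_al.FreeActionsExponentTen

/-- `m ∈ 𝓛`: every group satisfying `x ^ m = 1` is locally finite. -/
def InL (m : ℕ) : Prop :=
  ∀ (K : Type u) [Group K], (∀ x : K, x ^ m = 1) → ∀ S : Set K, S.Finite →
    Finite (Subgroup.closure S)

/-- The group `G` acts freely on the abelian group `V`: no nontrivial element of `G` fixes a
nonzero element of `V`. -/
def ActsFreely (G : Type u) (V : Type v) [Group G] [AddCommGroup V] [DistribMulAction G V] : Prop :=
  ∀ g : G, g ≠ 1 → ∀ w : V, g • w = w → w = 0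

theorem part_two {G : Type u} {V : Type v} [Group G] [AddCommGroup V] [DistribMulAction G V]
    [Nontrivial V] (hf : ActsFreely G V)
    (H : ∀ g h : G, g ^ 5 = 1 → h ^ 5 = 1 → (g * h) ^ 10 = 1) (m : ℕ) (hm : InL.{u} m)
    (hG : ∀ g : G, g ^ (5 * m) = 1) (S : Set G) (hS : S.Finite) :
    Finite (Subgroup.closure S) := by
  obtain ⟨T, hT, -, hcard, hmem⟩ := Q6.FreeAct.exists_T' (V := V) hf H
  have hTf : Finite T := by
    apply Nat.finite_of_card_ne_zero
    rcases hcard with h | h <;> rw [h] <;> norm_num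
  apply Q6.FreeAct.finite_of_quotient T S
  apply hm
  · intro q
    obtain ⟨g, rfl⟩ := QuotientGroup.mk'_surjective T q
    rw [← map_pow]
    refine (QuotientGroup.eq_one_iff (g ^ m)).2 ?_
    rw [hmem, ← pow_mul, mul_comm]
    exact hG g
  · exact hS.image _

theorem part_three {G : Type u} {V : Type v} [Group G] [AddCommGroup V] [DistribMulAction G V]
    [Nontrivial V] (hf : ActsFreely G V) (hG : ∀ g : G, g ^ 10 = 1) :
    IsCyclic G ∧ Finite G ∧ Nat.card G ∣ 10 := by
  obtain ⟨T, hT, hcyc, -, hmem⟩ := Q6.FreeAct.exists_T' (V := V) hf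
    (fun g h _ _ => hG (g * h))
  obtain ⟨z, hz2, hzc, hz⟩ : ∃ z : G, z ^ 2 = 1 ∧ (∀ g : G, z * g = g * z) ∧
      ∀ g : G, g ^ 2 = 1 → g = 1 ∨ g = z := by
    by_cases h : ∃ z : G, z ^ 2 = 1 ∧ z ≠ 1
    · obtain ⟨z, hz2, hz1⟩ := h
      have hI := Q6.FreeAct.inv_of (V := V) hf hz2 hz1
      refine ⟨z, hz2, hI.comm, ?_⟩
      intro g hg
      by_cases hg1 : g = 1
      · exact Or.inl hg1
      · right
        apply Q6.FreeAct.faithful (V := V) hf
        intro w
        rw [Q6.FreeAct.no_two (V := V) hf hg hg1, hI.neg]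
    · push Not at h
      exact ⟨1, one_pow 2, fun g => by rw [one_mul, mul_one], fun g hg => Or.inl (h g hg)⟩
  obtain ⟨⟨x, hxT⟩, hx⟩ := hcyc.exists_generator
  have hx5 : x ^ 5 = 1 := (hmem x).1 hxT
  have hzx : Commute z x := hzc x
  have ht5 : (z * x) ^ 5 = z := by
    rw [hzx.mul_pow, hx5, mul_one, show (5 : ℕ) = 2 * 2 + 1 from rfl, pow_add, pow_mul, hz2,
      one_pow, one_mul, pow_one]
  have ht6 : (z * x) ^ 6 = x := by
    rw [hzx.mul_pow, show x ^ 6 = x ^ (5 + 1) from rfl, pow_add, hx5, one_mul, pow_one,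
      show (6 : ℕ) = 2 * 3 from rfl, pow_mul, hz2, one_pow, one_mul]
  have hz' : z ∈ Subgroup.zpowers (z * x) := by
    have := pow_mem (Subgroup.mem_zpowers (z * x)) 5
    rwa [ht5] at this
  have hx' : x ∈ Subgroup.zpowers (z * x) := by
    have := pow_mem (Subgroup.mem_zpowers (z * x)) 6
    rwa [ht6] at this
  have hgen : ∀ g : G, g ∈ Subgroup.zpowers (z * x) := by
    intro g
    have e : g = g ^ 5 * g ^ 6 := by
      rw [← pow_add, show 5 + 6 = 10 + 1 from rfl, pow_add, hG, one_mul, pow_one]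
    rw [e]
    apply mul_mem
    · rcases hz (g ^ 5) (by rw [← pow_mul]; exact hG g) with h | h
      · rw [h]; exact one_mem _
      · rw [h]; exact hz'
    · have h6 : g ^ 6 ∈ T := by
        rw [hmem, ← pow_mul, show 6 * 5 = 10 * 3 from rfl, pow_mul, hG, one_pow]
      obtain ⟨k, hk⟩ := hx ⟨g ^ 6, h6⟩
      have : x ^ k = g ^ 6 := congrArg Subtype.val hk
      rw [← this]
      exact zpow_mem hx' k
  have hord : orderOf (z * x) ∣ 10 := orderOf_dvd_of_pow_eq_one (hG _)
  have hcard : Nat.card G = orderOf (z * x) := by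
    rw [← Nat.card_zpowers, (Subgroup.eq_top_iff' _).2 hgen, Subgroup.card_top]
  refine ⟨⟨⟨z * x, hgen⟩⟩, ?_, ?_⟩
  · apply Nat.finite_of_card_ne_zero
    rw [hcard]
    intro h0
    rw [h0] at hord
    norm_num at hord
  · rw [hcard]; exact hord

/-- (1) Let `G` be a group acting freely on a nontrivial abelian group such that the product of any
two elements `g, h` with `g ^ 5 = h ^ 5 = 1` satisfies `(g h) ^ 10 = 1`. Then the elements `g` of
`G` with `g ^ 5 = 1` form a normal cyclic subgroup of order `1` or `5`, and if `G` has exponent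
dividing `5 m` for some `m ∈ 𝓛`, then `G` is locally finite. (2) Every group of exponent dividing
`10` acting freely on a nontrivial abelian group is finite and cyclic, of order dividing `10`. -/
theorem result :
    (∀ (G : Type u) (V : Type v) [Group G] [AddCommGroup V] [DistribMulAction G V] [Nontrivial V],
      ActsFreely G V → (∀ g h : G, g ^ 5 = 1 → h ^ 5 = 1 → (g * h) ^ 10 = 1) →
        (∃ T : Subgroup G, T.Normal ∧ IsCyclic T ∧ (Nat.card T = 1 ∨ Nat.card T = 5) ∧
          ∀ g : G, g ∈ T ↔ g ^ 5 = 1) ∧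
        ∀ m : ℕ, InL.{u} m → (∀ g : G, g ^ (5 * m) = 1) →
          ∀ S : Set G, S.Finite → Finite (Subgroup.closure S)) ∧
    (∀ (G : Type u) (V : Type v) [Group G] [AddCommGroup V] [DistribMulAction G V] [Nontrivial V],
      ActsFreely G V → (∀ g : G, g ^ 10 = 1) → IsCyclic G ∧ Finite G ∧ Nat.card G ∣ 10) := by
  refine ⟨?_, ?_⟩
  · intro G V _ _ _ _ hf H
    exact ⟨Q6.FreeAct.exists_T' (V := V) hf H, fun m hm hG S hS => part_two (V := V) hf H m hm hG S hS⟩
  · intro G V _ _ _ _ hf hG
    exact part_three (V := V) hf hG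

end Pool.Agent.Results.MP_544bd1_al.FreeActionsExponentTen
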