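import Mathlib
import Pool.Agent.Q6.Deg.Main

/-!
# MP_544bd1_al: groups whose elements are algebraic of degree at most three or four

`𝓛` is the set of the positive integers `n` such that every group satisfying `x ^ n = 1` is locally
finite; `3 ∈ 𝓛` (Burnside) and `4 ∈ 𝓛` (Sanov), and `n ∉ 𝓛` for the multiples of large odd numbers.
We show that for every `n` a group satisfying `x ^ n = 1` is locally finite if it embeds in the unit
group of an algebra over a field (of any characteristic, the algebra may have infinite dimension)
such that every element of the group is a root of a nonzero polynomial of degree at most `3`, and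
that for `n = 2 ^ k m`, `m ∈ 𝓛`, degree at most `4` is enough.
-/

set_option autoImplicit false

universe u v w

namespace Pool.Agent.Results.MP_544bd1_al.SmallDegree

/-- `m ∈ 𝓛`: every group satisfying `x ^ m = 1` is locally finite. -/
def InL (m : ℕ) : Prop :=
  ∀ (K : Type u) [Group K], (∀ x : K, x ^ m = 1) → ∀ S : Set K, S.Finite →
    Finite (Subgroup.closure S)

/-- The element `a` of an `F`-algebra is a root of a nonzero polynomial over `F` of degree at
most `d`. -/
def DegreeLE (F : Type v) {A : Type w} [Field F] [Ring A] [Algebra F A] (d : ℕ) (a : A) : Prop :=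
  ∃ p : Polynomial F, p ≠ 0 ∧ p.natDegree ≤ d ∧ Polynomial.aeval a p = 0

/-- Let `F` be a field, `A` an `F`-algebra and `f : G → A` an injective homomorphism from a group
to the multiplicative monoid of `A` (so `G` is a group of units).
(1) If all elements of `G` have degree at most `3` over `F`, then every finitely generated subgroup
of `G` spans a finite-dimensional subspace of `A`; if moreover `G` has exponent dividing `n ≥ 1`
for any `n`, then `G` is locally finite.
(2) If all elements of `G` have degree at most `4` over `F` and `G` has exponent dividing `2 ^ k m`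
with `m ∈ 𝓛`, then `G` is locally finite.
(3) In particular this holds for the exponents `3 * 2 ^ k` (and so for `2 ^ k`), for all `k`. -/
theorem result :
    (∀ (F : Type v) (A : Type w) (G : Type u) [Field F] [Ring A] [Algebra F A] [Group G]
      (f : G →* A), Function.Injective f → (∀ g : G, DegreeLE F 3 (f g)) →
        (∀ S : Set G, S.Finite →
          FiniteDimensional F (Submodule.span F (f '' (Subgroup.closure S : Set G)))) ∧
        ∀ n : ℕ, 1 ≤ n → (∀ g : G, g ^ n = 1) → ∀ S : Set G, S.Finite →
          Finite (Subgroup.closure S)) ∧
    (∀ (F : Type v) (A : Type w) (G : Type u) [Field F] [Ring A] [Algebra F A] [Group G]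
      (f : G →* A), Function.Injective f → (∀ g : G, DegreeLE F 4 (f g)) →
        ∀ k m : ℕ, 1 ≤ m → InL.{u} m → (∀ g : G, g ^ (2 ^ k * m) = 1) → ∀ S : Set G, S.Finite →
          Finite (Subgroup.closure S)) ∧
    (∀ (F : Type v) (A : Type w) (G : Type u) [Field F] [Ring A] [Algebra F A] [Group G]
      (f : G →* A), Function.Injective f → (∀ g : G, DegreeLE F 4 (f g)) →
        ∀ k : ℕ, (∀ g : G, g ^ (2 ^ k * 3) = 1) → ∀ S : Set G, S.Finite →
          Finite (Subgroup.closure S)) := by
  refine ⟨?_, ?_, ?_⟩
  · intro F A G _ _ _ _ f hinj h
    refine ⟨fun S hS => ?_, fun n hn hG S hS => ?_⟩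
    · exact (Submodule.fg_iff_finiteDimensional _).1 (Q6.Deg.cubic_span (Q6.Deg.cub_of h) S hS)
    · exact Q6.Deg.main_three hinj h hn hG S hS
  · intro F A G _ _ _ _ f hinj h k m hm hL hG S hS
    exact Q6.Deg.main_four hinj h hm hL hG S hS
  · intro F A G _ _ _ _ f hinj h k hG S hS
    exact Q6.Deg.main_four hinj h (by norm_num) Q6.Deg.inL_three hG S hS

end Pool.Agent.Results.MP_544bd1_al.SmallDegree
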