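import Mathlib
import Pool.Agent.Q23.UG.Fin

/-!
# MP_544bd1_al: groups of units containing the unipotent elements of the algebra they span

`𝓛` is the set of the positive integers `n` such that every group satisfying `x ^ n = 1` is locally
finite. Every group embeds in the group of units of a ring. We treat, for all `n`, the groups `G` of
units of a `K`-algebra `R` (of any dimension, `K` any commutative ring) satisfying `x ^ n = 1` which
contain the element `1 + w` for every nilpotent element `w` of the subalgebra `K[G]` which they span:
the finitely generated subgroups of `G` are finite if and only if their images in the domains which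
are quotients of `K[G]` are finite, and this is always the case for the open exponents `5`, `8`, `9`,
`10`, `12`, `18`, `24` and `36`, in positive characteristic for the exponents dividing `9 * 2 ^ k` for
all `k` (the free Burnside groups of these exponents are infinite for large `k`), if `G` is generated
by unipotent elements, and if `K` contains the `n`-th roots of unity, for all `n`.
-/

set_option autoImplicit false

universe u v

namespace Pool.Agent.Results.MP_544bd1_al.UnipotentClosedGroups

/-- `m ∈ 𝓛`: every group satisfying `x ^ m = 1` is locally finite. -/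
def InL (m : ℕ) : Prop :=
  ∀ (K : Type u) [Group K], (∀ x : K, x ^ m = 1) → ∀ S : Set K, S.Finite →
    Finite (Subgroup.closure S)

/-- The `K`-subalgebra `K[G]` generated by a group `G` of units of a `K`-algebra. -/
abbrev Span (K : Type v) {R : Type u} [CommRing K] [Ring R] [Algebra K R] (G : Subgroup Rˣ) :
    Subalgebra K R := Algebra.adjoin K (Units.val '' (G : Set Rˣ))

/-- `G` contains `1 + w` for every nilpotent element `w` of `K[G]`. -/
def UnipotentClosed (K : Type v) {R : Type u} [CommRing K] [Ring R] [Algebra K R]
    (G : Subgroup Rˣ) : Prop :=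
  ∀ w ∈ Span K G, IsNilpotent w → ∃ u ∈ G, (u : R) = 1 + w

/-- The element `x` of a `K`-algebra is annihilated by a product of monic polynomials over `K` of
degree at most `d`. For `x ^ n = 1` and `d = 1` this holds if `X ^ n - 1` is a product of monic
linear polynomials over `K`. -/
def SplitLE (K : Type v) (d : ℕ) {R : Type u} [CommRing K] [Ring R] [Algebra K R] (x : R) : Prop :=
  ∃ l : List (Polynomial K), (∀ q ∈ l, q.Monic ∧ q.natDegree ≤ d) ∧
    Polynomial.aeval x l.prod = 0

/-- Let `n ≥ 1`, let `R` be a `K`-algebra and let `G` be a group of units of `R` satisfying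
`x ^ n = 1` which contains `1 + w` for every nilpotent element `w` of `K[G]`. A subgroup of `G`
generated by a finite set is finite if and only if its images under the surjective homomorphisms
from `K[G]` to `K`-algebras which are domains are finite. Hence `G` is locally finite in each of the
following cases: `G` is generated by unipotent elements; every element of `G` is annihilated by a
product of monic polynomials over `K` of degree at most `3`; the same holds for the degree `4` and
`n = 2 ^ k m` with `m ∈ 𝓛`; `n` divides `10`, `24` or `36`; `n` divides `9 * 2 ^ k` for some `k` and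
`R` has positive characteristic. -/
theorem result (n : ℕ) (hn : 1 ≤ n) (K : Type v) (R : Type u) [CommRing K] [Ring R] [Algebra K R]
    (G : Subgroup Rˣ) (hG : ∀ x ∈ G, x ^ n = 1) (hU : UnipotentClosed K G) :
    (∀ S : Set Rˣ, S.Finite → S ⊆ G → (Finite (Subgroup.closure S) ↔
      ∀ (D : Type u) [Ring D] [IsDomain D] [Algebra K D] (f : Span K G →ₐ[K] D),
        Function.Surjective f →
          (f '' {x : Span K G | ∃ u ∈ Subgroup.closure S, (x : R) = (u : Rˣ)}).Finite)) ∧
    (((G ≤ Subgroup.closure {x : Rˣ | x ∈ G ∧ IsNilpotent ((x : R) - 1)}) ∨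
        (∀ x ∈ G, SplitLE K 3 (x : R)) ∨
        (∃ k m : ℕ, 1 ≤ m ∧ InL.{u} m ∧ n = 2 ^ k * m ∧ ∀ x ∈ G, SplitLE K 4 (x : R)) ∨
        (n ∣ 10 ∨ n ∣ 24 ∨ n ∣ 36) ∨
        ((∃ m : ℕ, 1 ≤ m ∧ (m : R) = 0) ∧ ∃ k : ℕ, n ∣ 9 * 2 ^ k)) →
      ∀ S : Set Rˣ, S.Finite → S ⊆ G → Finite (Subgroup.closure S)) := by
  have hfg : ∀ S : Set Rˣ, S.Finite → (Subgroup.closure S).FG := fun S hS =>
    ⟨hS.toFinset, by rw [Set.Finite.coe_toFinset]⟩
  have hle : ∀ S : Set Rˣ, S ⊆ G → Subgroup.closure S ≤ G := fun S hS =>
    (Subgroup.closure_le G).2 hS
  refine ⟨fun S hS hSG => ?_, fun hc S hS hSG => ?_⟩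
  · exact Q23.UG.clo_iff n hn G hG hU _ (hle S hSG) (hfg S hS)
  · exact Q23.UG.clo_final n hn G hG hU hc _ (hle S hSG) (hfg S hS)

end Pool.Agent.Results.MP_544bd1_al.UnipotentClosedGroups
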