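import Mathlib
import Pool.Agent.Q23.UG.Main

/-!
# MP_544bd1_al: unit groups of rings of finite exponent are locally finite

`𝓛` is the set of the positive integers `n` such that every group satisfying `x ^ n = 1` is locally
finite. We show that, for every positive integer `n`, the group of units of an arbitrary
(associative, unital) ring is locally finite if it satisfies `x ^ n = 1`, and that the orders of its
`m`-generated subgroups are bounded by a function of `m` and `n`. (Automorphism groups of modules
and of abelian groups are unit groups of rings.) So `n ∈ 𝓛` if and only if every finitely generated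
group satisfying `x ^ n = 1` embeds in the group of units of a ring whose group of units has finite
exponent.
-/

set_option autoImplicit false

universe u

namespace Pool.Agent.Results.MP_544bd1_al.UnitGroupsOfRings

/-- Every finitely generated subgroup of `G` is finite. -/
def LocallyFinite (G : Type u) [Group G] : Prop :=
  ∀ S : Set G, S.Finite → Finite (Subgroup.closure S)

/-- `n ∈ 𝓛`: every group satisfying `x ^ n = 1` is locally finite. -/
def InL (n : ℕ) : Prop :=
  ∀ (G : Type) [Group G], (∀ x : G, x ^ n = 1) → LocallyFinite G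

theorem fg_of_finite {G : Type u} [Group G] (S : Set G) (hS : S.Finite) : (Subgroup.closure S).FG :=
  ⟨hS.toFinset, by rw [Set.Finite.coe_toFinset]⟩

theorem part_one (n : ℕ) (hn : 1 ≤ n) (R : Type u) [Ring R] (h : ∀ x : Rˣ, x ^ n = 1) :
    LocallyFinite Rˣ := fun S hS =>
  Q23.UG.main (fun x => ⟨n, hn, h x⟩) (Or.inl ⟨n, hn, h⟩) _ (fg_of_finite S hS)

theorem part_three (n m : ℕ) (hn : 1 ≤ n) : ∃ c : ℕ, ∀ (R : Type u) [Ring R], (∀ x : Rˣ, x ^ n = 1) →
    ∀ S : Finset Rˣ, S.card ≤ m → Nat.card (Subgroup.closure (S : Set Rˣ)) ≤ c := by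
  classical
  by_contra hcon
  push Not at hcon
  choose R hR hexp S hS hcard using hcon
  -- enumerate the generators
  have henum : ∀ c, ∃ f : Fin m → (R c)ˣ, (S c : Set (R c)ˣ) ⊆ Set.range f := by
    intro c
    rcases Nat.eq_zero_or_pos m with h0 | h0
    · have : S c = ∅ := Finset.card_eq_zero.mp (by have := hS c; omega)
      subst h0
      exact ⟨fun _ => 1, by rw [this]; simp⟩
    · have h1 : Fintype.card (S c) ≤ Fintype.card (Fin m) := by
        simpa using hS c
      obtain ⟨g⟩ := Function.Embedding.nonempty_of_card_le h1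
      refine ⟨fun i => if h : ∃ x : S c, g x = i then (h.choose : (R c)ˣ) else 1, ?_⟩
      intro x hx
      refine ⟨g ⟨x, hx⟩, ?_⟩
      have h : ∃ y : S c, g y = g ⟨x, hx⟩ := ⟨_, rfl⟩
      simp only [dif_pos h]
      have := g.injective h.choose_spec
      rw [this]
  choose f hf using henum
  let P := ∀ c, R c
  let e : Pˣ ≃* (∀ c, (R c)ˣ) := MulEquiv.piUnits
  let F : Fin m → Pˣ := fun i => e.symm (fun c => f c i)
  have hP : ∀ x : Pˣ, x ^ n = 1 := by
    intro x
    apply e.injective
    rw [map_pow, map_one]
    funext c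
    exact hexp c _
  have hfin := part_one n hn P hP (Set.range F) (Set.finite_range F)
  let c := Nat.card (Subgroup.closure (Set.range F))
  let pr : Pˣ →* (R c)ˣ := (Pi.evalMonoidHom (fun c => (R c)ˣ) c).comp e.toMonoidHom
  have h1 : Subgroup.closure (S c : Set (R c)ˣ) ≤ (Subgroup.closure (Set.range F)).map pr := by
    rw [Subgroup.closure_le]
    intro x hx
    obtain ⟨i, rfl⟩ := hf c hx
    refine ⟨F i, Subgroup.subset_closure ⟨i, rfl⟩, ?_⟩
    show e (e.symm (fun c => f c i)) c = f c i
    rw [MulEquiv.apply_symm_apply]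
  have h2 : Finite ((Subgroup.closure (Set.range F)).map pr) := by
    have : (((Subgroup.closure (Set.range F)).map pr : Subgroup (R c)ˣ) : Set (R c)ˣ).Finite := by
      rw [Subgroup.coe_map]
      exact Set.Finite.image _ hfin
    exact this
  have h3 : Nat.card (Subgroup.closure (S c : Set (R c)ˣ)) ≤ Nat.card ((Subgroup.closure (Set.range F)).map pr) :=
    Nat.card_le_card_of_injective (Subgroup.inclusion h1) (Subgroup.inclusion_injective h1)
  have h4 : Nat.card ((Subgroup.closure (Set.range F)).map pr) ≤ c := by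
    have h5 : Function.Surjective (fun x : Subgroup.closure (Set.range F) => (⟨pr x, ⟨x, x.2, rfl⟩⟩ : (Subgroup.closure (Set.range F)).map pr)) := by
      rintro ⟨_, ⟨x, hx, rfl⟩⟩
      exact ⟨⟨x, hx⟩, rfl⟩
    exact Nat.card_le_card_of_surjective _ h5
  exact absurd (hcard c) (by omega)

theorem part_four (n : ℕ) : InL n ↔ ∀ (G : Type) [Group G], Group.FG G → (∀ x : G, x ^ n = 1) →
    ∃ (R : Type) (_ : Ring R) (f : G →* Rˣ) (N : ℕ), Function.Injective f ∧ 1 ≤ N ∧
      ∀ x : Rˣ, x ^ N = 1 := by
  constructor
  · intro h G _ hfg hG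
    obtain ⟨S, hS⟩ := hfg
    have h1 := h G hG (S : Set G) S.finite_toSet
    rw [hS] at h1
    have h2 : Finite G := Finite.of_equiv _ Subgroup.topEquiv.toEquiv
    let R := MonoidAlgebra (ZMod 2) G
    have h3 : Finite R := by
      have : Finite (G →₀ ZMod 2) :=
        Finite.of_injective (fun x : G →₀ ZMod 2 => (x : G → ZMod 2)) DFunLike.coe_injective
      exact Finite.of_injective (fun x : R => (MonoidAlgebra.coeff x : G →₀ ZMod 2)) (fun x y h => by simpa using h)
    refine ⟨R, inferInstance, (MonoidAlgebra.of (ZMod 2) G).toHomUnits, Nat.card Rˣ, ?_, ?_, fun x => pow_card_eq_one'⟩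
    · intro x y hxy
      have := congrArg Units.val hxy
      rw [MonoidHom.coe_toHomUnits, MonoidHom.coe_toHomUnits] at this
      exact MonoidAlgebra.of_injective this
    · exact Nat.card_pos
  · intro h G _ hG S hS
    have h1 : Group.FG (Subgroup.closure S) := (Group.fg_iff_subgroup_fg _).mpr (fg_of_finite S hS)
    obtain ⟨R, _, f, N, hf, hN, hR⟩ := h (Subgroup.closure S) h1 (fun x => Subtype.ext (hG x))
    have h2 : f.range.FG := by
      rw [← Group.fg_iff_subgroup_fg]
      infer_instance
    have h3 : Finite f.range := Q23.UG.main (fun x => ⟨N, hN, hR x⟩) (Or.inl ⟨N, hN, hR⟩) _ h2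
    exact Finite.of_injective _ (MonoidHom.rangeRestrict_injective_iff.mpr hf)

/-- Let `n ≥ 1`. For every ring `R` whose group of units satisfies `x ^ n = 1`, the subgroups of
`Rˣ` generated by finite sets are finite, and the order of a subgroup generated by `m` elements is
bounded by a number `c m` which does not depend on `R`. Hence `n ∈ 𝓛` if and only if every finitely
generated group satisfying `x ^ n = 1` embeds in the group of units of some ring whose group of
units has finite exponent. -/
theorem result (n : ℕ) (hn : 1 ≤ n) :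
    (∃ c : ℕ → ℕ, ∀ (R : Type u) [Ring R], (∀ x : Rˣ, x ^ n = 1) → ∀ S : Finset Rˣ,
      Finite (Subgroup.closure (S : Set Rˣ)) ∧
        Nat.card (Subgroup.closure (S : Set Rˣ)) ≤ c S.card) ∧
    (InL n ↔ ∀ (G : Type) [Group G], Group.FG G → (∀ x : G, x ^ n = 1) →
      ∃ (R : Type) (_ : Ring R) (f : G →* Rˣ) (N : ℕ), Function.Injective f ∧ 1 ≤ N ∧
        ∀ x : Rˣ, x ^ N = 1) := by
  refine ⟨?_, part_four n⟩
  choose c hc using fun m => part_three.{u} n m hn
  exact ⟨c, fun R _ hR S => ⟨part_one n hn R hR _ S.finite_toSet, hc S.card R hR S le_rfl⟩⟩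

end Pool.Agent.Results.MP_544bd1_al.UnitGroupsOfRings
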